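import Mathlib

/-!
# Subalgebras of finite algebras: the counting lemma
-/

set_option autoImplicit false

namespace Pool.Agent.Q188.SR

universe u v

variable {k : Type v} {R : Type u} [CommRing k]

/-- `x` and `y` together are rare: in each lower set of subalgebras the number of the members that
contain `x` plus the number of those that contain `y` is at most the number of all members. -/
def RarePair (k : Type v) {R : Type u} [CommRing k] [NonUnitalNonAssocRing R] [Module k R]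
    (x y : R) : Prop :=
  ∀ Q : Set (NonUnitalSubalgebra k R), IsLowerSet Q →
    {K ∈ Q | x ∈ K}.ncard + {K ∈ Q | y ∈ K}.ncard ≤ Q.ncard

instance finSub [NonUnitalNonAssocRing R] [Module k R] [Finite R] :
    Finite (NonUnitalSubalgebra k R) :=
  Finite.of_injective (fun K : NonUnitalSubalgebra k R => (K : Set R)) SetLike.coe_injective

/-- a two-sided ideal as a subalgebra -/
def ofIdeal [NonUnitalNonAssocRing R] [Module k R] (I : Submodule k R)
    (hl : ∀ r, ∀ i ∈ I, r * i ∈ I) : NonUnitalSubalgebra k R :=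
  { I with
    mul_mem' := fun {a _} _ hb => hl a _ hb }

theorem mem_ofIdeal [NonUnitalNonAssocRing R] [Module k R] {I : Submodule k R}
    {hl : ∀ r, ∀ i ∈ I, r * i ∈ I} {x : R} : x ∈ ofIdeal I hl ↔ x ∈ I := Iff.rfl

/-- **The counting lemma.** -/
theorem rarePair_of [NonUnitalNonAssocRing R] [Module k R] [IsScalarTower k R R]
    [SMulCommClass k R R] [Finite R] {I : Submodule k R}
    (hl : ∀ r, ∀ i ∈ I, r * i ∈ I) {x y : R} (hx : x ∉ I) (hy : y ∉ I)
    (hgen : ∀ D : NonUnitalSubalgebra k R, x ∈ D → y ∈ D → ∀ r, ∃ s ∈ D, r - s ∈ I) :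
    RarePair k x y := by
  classical
  intro Q hQ
  have h1 : {K ∈ Q | x ∈ K ∧ y ∈ K}.ncard ≤ {K ∈ Q | x ∉ K ∧ y ∉ K}.ncard := by
    refine Set.ncard_le_ncard_of_injOn (fun K => K ⊓ ofIdeal I hl) ?_ ?_ (Set.toFinite _)
    · rintro K ⟨hK, hxK, hyK⟩
      refine ⟨hQ inf_le_left hK, ?_, ?_⟩
      · intro h
        exact hx (NonUnitalAlgebra.mem_inf.mp h).2
      · intro h
        exact hy (NonUnitalAlgebra.mem_inf.mp h).2
    · rintro K ⟨hK, hxK, hyK⟩ L ⟨hL, hxL, hyL⟩ h
      have h' : K ⊓ ofIdeal I hl = L ⊓ ofIdeal I hl := h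
      have key : ∀ r, ∃ s, s ∈ K ∧ s ∈ L ∧ r - s ∈ I := by
        intro r
        obtain ⟨s, hs, hrs⟩ := hgen (K ⊓ L) (NonUnitalAlgebra.mem_inf.mpr ⟨hxK, hxL⟩)
          (NonUnitalAlgebra.mem_inf.mpr ⟨hyK, hyL⟩) r
        rw [NonUnitalAlgebra.mem_inf] at hs
        exact ⟨s, hs.1, hs.2, hrs⟩
      ext r
      obtain ⟨s, hsK, hsL, hrs⟩ := key r
      constructor
      · intro hr
        have h1 : r - s ∈ K ⊓ ofIdeal I hl :=
          NonUnitalAlgebra.mem_inf.mpr ⟨sub_mem hr hsK, hrs⟩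
        rw [h', NonUnitalAlgebra.mem_inf] at h1
        have := add_mem h1.1 hsL
        rwa [sub_add_cancel] at this
      · intro hr
        have h1 : r - s ∈ L ⊓ ofIdeal I hl :=
          NonUnitalAlgebra.mem_inf.mpr ⟨sub_mem hr hsL, hrs⟩
        rw [← h', NonUnitalAlgebra.mem_inf] at h1
        have := add_mem h1.1 hsK
        rwa [sub_add_cancel] at this
  have hA : {K ∈ Q | x ∈ K}.ncard = {K ∈ Q | x ∈ K ∧ y ∈ K}.ncard + {K ∈ Q | x ∈ K ∧ y ∉ K}.ncard := by
    rw [← Set.ncard_union_eq _ (Set.toFinite _) (Set.toFinite _)]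
    · congr 1
      ext K
      simp only [Set.mem_union, Set.mem_ofPred_eq]
      tauto
    · rw [Set.disjoint_left]
      rintro K ⟨_, _, h⟩ ⟨_, _, h'⟩
      exact h' h
  have hB : {K ∈ Q | y ∈ K}.ncard = {K ∈ Q | x ∈ K ∧ y ∈ K}.ncard + {K ∈ Q | x ∉ K ∧ y ∈ K}.ncard := by
    rw [← Set.ncard_union_eq _ (Set.toFinite _) (Set.toFinite _)]
    · congr 1
      ext K
      simp only [Set.mem_union, Set.mem_ofPred_eq]
      tauto
    · rw [Set.disjoint_left]
      rintro K ⟨_, h, _⟩ ⟨_, h', _⟩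
      exact h' h
  have hC : Q.ncard = {K ∈ Q | x ∈ K}.ncard + ({K ∈ Q | x ∉ K ∧ y ∈ K}.ncard +
      {K ∈ Q | x ∉ K ∧ y ∉ K}.ncard) := by
    rw [← Set.ncard_union_eq (s := {K ∈ Q | x ∉ K ∧ y ∈ K}) _ (Set.toFinite _) (Set.toFinite _),
      ← Set.ncard_union_eq _ (Set.toFinite _) (Set.toFinite _)]
    · congr 1
      ext K
      simp only [Set.mem_union, Set.mem_ofPred_eq]
      tauto
    · rw [Set.disjoint_left]
      rintro K ⟨_, h⟩ (⟨_, h', _⟩ | ⟨_, h', _⟩) <;> exact h' h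
    · rw [Set.disjoint_left]
      rintro K ⟨_, _, h⟩ ⟨_, _, h'⟩
      exact h' h
  omega

/-- **Algebras that are not generated by products.** -/
theorem exists_rarePair_of_ne [NonUnitalNonAssocRing R] [Module k R] [IsScalarTower k R R]
    [SMulCommClass k R R] [Finite R]
    (h : Submodule.span k {z : R | ∃ a b, z = a * b} ≠ ⊤) : ∃ x : R, RarePair k x x := by
  classical
  have hfin : Finite (Submodule k R) :=
    Finite.of_injective (fun K : Submodule k R => (K : Set R)) SetLike.coe_injective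
  obtain ⟨I, hI, hle⟩ : ∃ I : Submodule k R, IsCoatom I ∧
      Submodule.span k {z : R | ∃ a b, z = a * b} ≤ I := by
    rcases eq_top_or_exists_le_coatom (Submodule.span k {z : R | ∃ a b, z = a * b}) with h' | h'
    · exact absurd h' h
    · exact h'
  obtain ⟨x, hx⟩ : ∃ x, x ∉ I := by
    by_contra hcon
    push Not at hcon
    exact hI.1 (eq_top_iff.mpr fun x _ => hcon x)
  have hl : ∀ r, ∀ i ∈ I, r * i ∈ I := fun r i _ => hle (Submodule.subset_span ⟨r, i, rfl⟩)
  refine ⟨x, rarePair_of hl hx hx ?_⟩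
  intro D hD _ r
  have h1 : D.toSubmodule ⊔ I = ⊤ := by
    apply hI.2
    refine lt_of_le_of_ne le_sup_right ?_
    intro h
    apply hx
    rw [h]
    exact Submodule.mem_sup_left hD
  have h2 : r ∈ D.toSubmodule ⊔ I := by rw [h1]; trivial
  obtain ⟨s, hs, i, hi, rfl⟩ := Submodule.mem_sup.mp h2
  exact ⟨s, hs, by simpa using hi⟩

end Pool.Agent.Q188.SR
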