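import Mathlib

/-!
# Matrix rings over finite fields are generated by two elements
-/

set_option autoImplicit false

namespace Pool.Agent.Q188.SR

open Matrix
open scoped Fin.NatCast

universe u

variable {D : Type u} [Field D] {n : ℕ} [NeZero n]

/-- the matrix of the cyclic shift -/
def cyc (n : ℕ) [NeZero n] (D : Type u) [Field D] : Matrix (Fin n) (Fin n) D :=
  Matrix.of fun i j => if j = i + 1 then 1 else 0

theorem cyc_mul_single (a b : Fin n) (d : D) : cyc n D * single a b d = single (a - 1) b d := by
  ext i j
  rw [Matrix.mul_apply, Finset.sum_eq_single a]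
  · simp only [cyc, Matrix.of_apply, Matrix.single_apply, true_and]
    by_cases h : a = i + 1
    · have h' : a - 1 = i := by rw [h]; simp
      simp [h, h']
    · have h' : ¬ a - 1 = i := fun h' => h (by rw [← h']; simp)
      simp [h, h']
  · intro c _ hc
    rw [Matrix.single_apply, if_neg (fun h => hc h.1.symm), mul_zero]
  · intro h
    exact absurd (Finset.mem_univ a) h

theorem single_mul_cyc (a b : Fin n) (d : D) : single a b d * cyc n D = single a (b + 1) d := by
  ext i j
  rw [Matrix.mul_apply, Finset.sum_eq_single b]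
  · simp only [cyc, Matrix.of_apply, Matrix.single_apply, and_true]
    by_cases h : j = b + 1
    · subst h
      by_cases h2 : a = i <;> simp [h2]
    · have h' : ¬ (b + 1 = j) := fun h' => h h'.symm
      simp [h, h']
  · intro c _ hc
    rw [Matrix.single_apply, if_neg (fun h => hc h.2.symm), zero_mul]
  · intro h
    exact absurd (Finset.mem_univ b) h

theorem cyc_ne_zero : cyc n D ≠ 0 := by
  intro h
  have := congrFun (congrFun h 0) 1
  simp [cyc] at this

theorem mem_of_gen [Finite D] {θ : Dˣ} (hθ : ∀ u : Dˣ, u ∈ Submonoid.powers θ)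
    (T : Set (Matrix (Fin n) (Fin n) D)) (h0 : (0 : Matrix (Fin n) (Fin n) D) ∈ T)
    (hadd : ∀ x ∈ T, ∀ y ∈ T, x + y ∈ T) (hmul : ∀ x ∈ T, ∀ y ∈ T, x * y ∈ T)
    (h1 : single 0 0 (θ : D) ∈ T) (h2 : cyc n D ∈ T) (M : Matrix (Fin n) (Fin n) D) : M ∈ T := by
  classical
  have hpow : ∀ m : ℕ, single (0 : Fin n) 0 ((θ : D) ^ (m + 1)) ∈ T := by
    intro m
    induction m with
    | zero => simpa using h1
    | succ m ih =>
      have := hmul _ ih _ h1
      rw [Matrix.single_mul_single_same] at this
      rwa [pow_succ]
  have hd : ∀ d : D, single (0 : Fin n) 0 d ∈ T := by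
    intro d
    by_cases hd : d = 0
    · rw [hd, Matrix.single_zero]
      exact h0
    · obtain ⟨m, hm⟩ := hθ (Units.mk0 d hd * θ⁻¹)
      have hm' : θ ^ m = Units.mk0 d hd * θ⁻¹ := hm
      have h3 : θ ^ (m + 1) = Units.mk0 d hd := by
        rw [pow_succ, hm', inv_mul_cancel_right]
      have h4 := hpow m
      have h5 : (θ : D) ^ (m + 1) = d := by
        have := congrArg (fun u : Dˣ => (u : D)) h3
        simpa using this
      rwa [h5] at h4
  have hrow : ∀ (d : D) (m : ℕ), single (0 : Fin n) ((m : ℕ) : Fin n) d ∈ T := by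
    intro d m
    induction m with
    | zero => simpa using hd d
    | succ m ih =>
      have := hmul _ ih _ h2
      rw [single_mul_cyc] at this
      simpa using this
  have hcol : ∀ (d : D) (m : ℕ) (b : Fin n), single (-((m : ℕ) : Fin n)) b d ∈ T := by
    intro d m b
    induction m with
    | zero =>
      have := hrow d b.val
      simpa using this
    | succ m ih =>
      have := hmul _ h2 _ ih
      rw [cyc_mul_single] at this
      have h6 : (-((m : ℕ) : Fin n)) - 1 = -(((m + 1 : ℕ)) : Fin n) := by
        rw [Nat.cast_succ, neg_add, sub_eq_add_neg]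
      rwa [h6] at this
  have hall : ∀ (a b : Fin n) (d : D), single a b d ∈ T := by
    intro a b d
    have := hcol d (-a).val b
    simpa using this
  rw [Matrix.matrix_eq_sum_single M]
  have hsum : ∀ (s : Finset (Fin n)) (f : Fin n → Matrix (Fin n) (Fin n) D), (∀ i, f i ∈ T) →
      ∑ i ∈ s, f i ∈ T := by
    intro s f hf
    induction s using Finset.induction_on with
    | empty => simpa using h0
    | insert a s ha ih =>
      rw [Finset.sum_insert ha]
      exact hadd _ (hf a) _ ih
  exact hsum _ _ fun i => hsum _ _ fun j => hall i j _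

end Pool.Agent.Q188.SR
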