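import Mathlib

/-!
# A finite ring which is generated additively by its products has a matrix ring over a finite
field as a quotient
-/

set_option autoImplicit false

namespace Pool.Agent.Q188.SR

universe u

theorem exists_matrix (R : Type u) [NonUnitalRing R] [Finite R] [Nontrivial R]
    (hprod : ∀ r : R, r ∈ AddSubmonoid.closure {z : R | ∃ a b, z = a * b}) :
    ∃ (n : ℕ) (_ : NeZero n) (D : Type u) (_ : Field D) (_ : Finite D)
      (φ : R →ₙ+* Matrix (Fin n) (Fin n) D), Function.Surjective φ := by
  classical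
  obtain ⟨m, hm⟩ : ∃ m, m = Nat.card R := ⟨_, rfl⟩
  have hm0 : NeZero m := ⟨by rw [hm]; exact Nat.card_pos.ne'⟩
  have hmul : ∀ x : R, m • x = 0 := fun x => by rw [hm]; exact card_nsmul_eq_zero'
  let _ : Module (ZMod m) R := AddCommGroup.zmodModule hmul
  have hsm : ∀ (c : ZMod m) (x : R), c • x = c.val • x := by
    intro c x
    conv_lhs => rw [← ZMod.natCast_zmod_val c]
    exact Nat.cast_smul_eq_nsmul (ZMod m) c.val x
  have i1 : IsScalarTower (ZMod m) R R := ⟨fun c x y => by
    simp only [smul_eq_mul, hsm]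
    exact smul_mul_assoc _ _ _⟩
  have i2 : SMulCommClass (ZMod m) R R := ⟨fun c x y => by
    simp only [smul_eq_mul, hsm]
    exact (mul_smul_comm _ _ _).symm⟩
  have i3 : Finite (Unitization (ZMod m) R) := by
    refine Finite.of_injective (fun u => (u.fst, u.snd) : Unitization (ZMod m) R → ZMod m × R) ?_
    intro u v h
    rw [Prod.mk.injEq] at h
    exact Unitization.ext h.1 h.2
  have i4 : IsArtinianRing (Unitization (ZMod m) R) := inferInstance
  obtain ⟨J, hJ⟩ : ∃ J, J = Ring.jacobson (Unitization (ZMod m) R) := ⟨_, rfl⟩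
  have hnil : IsNilpotent J := by rw [hJ]; exact IsSemiprimaryRing.isNilpotent
  -- some element of `R` is not in the radical
  have hr : ∃ r : R, (Unitization.inr r : Unitization (ZMod m) R) ∉ J := by
    by_contra hcon
    push Not at hcon
    obtain ⟨N, hN⟩ := hnil
    have key : ∀ N : ℕ, ∀ r : R, (Unitization.inr r : Unitization (ZMod m) R) ∈ J ^ (N + 1) := by
      intro N
      induction N with
      | zero => intro r; rw [zero_add, Submodule.pow_one]; exact hcon r
      | succ N ih =>
        intro r
        induction hprod r using AddSubmonoid.closure_induction with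
        | mem x hx =>
          obtain ⟨a, b, rfl⟩ := hx
          rw [Unitization.inr_mul, Submodule.pow_succ]
          exact Ideal.mul_mem_mul (ih a) (hcon b)
        | zero => rw [Unitization.inr_zero]; exact Ideal.zero_mem _
        | add x y _ _ hx hy => rw [Unitization.inr_add]; exact Ideal.add_mem _ hx hy
    obtain ⟨x, y, hxy⟩ := exists_pair_ne R
    apply hxy
    have h0 : ∀ r : R, r = 0 := by
      intro r
      have h1 := key N r
      rw [Submodule.pow_succ, hN, zero_mul] at h1
      have h2 : (Unitization.inr r : Unitization (ZMod m) R) = 0 := h1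
      have := congrArg (fun u : Unitization (ZMod m) R => u.snd) h2
      simpa using this
    rw [h0 x, h0 y]
  obtain ⟨r, hr⟩ := hr
  subst hJ
  obtain ⟨N, D, d, hD, hd, ⟨e⟩⟩ := IsSemisimpleRing.exists_ringEquiv_pi_matrix_divisionRing
    (Unitization (ZMod m) R ⧸ Ring.jacobson (Unitization (ZMod m) R))
  let π := Ideal.Quotient.mk (Ring.jacobson (Unitization (ZMod m) R))
  have hπ : π (Unitization.inr r) ≠ 0 := by
    intro h
    exact hr (Ideal.Quotient.eq_zero_iff_mem.mp h)
  have he : e (π (Unitization.inr r)) ≠ 0 := by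
    intro h
    exact hπ (e.map_eq_zero_iff.mp h)
  obtain ⟨i, hi⟩ : ∃ i, e (π (Unitization.inr r)) i ≠ 0 := by
    by_contra hcon
    push Not at hcon
    exact he (funext hcon)
  let ψ : Unitization (ZMod m) R →+* Matrix (Fin (d i)) (Fin (d i)) (D i) :=
    (Pi.evalRingHom (fun i => Matrix (Fin (d i)) (Fin (d i)) (D i)) i).comp
      ((e : _ →+* _).comp π)
  have hψ : Function.Surjective ψ := by
    intro M
    obtain ⟨z, hz⟩ := Function.surjective_eval (β := fun i => Matrix (Fin (d i)) (Fin (d i)) (D i)) i M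
    obtain ⟨w, hw⟩ := e.surjective z
    obtain ⟨u, hu⟩ := Ideal.Quotient.mk_surjective w
    refine ⟨u, ?_⟩
    change e (π u) i = M
    have : π u = w := hu
    rw [this, hw]
    exact hz
  have hψr : ψ (Unitization.inr r) ≠ 0 := hi
  let φ : R →ₙ+* Matrix (Fin (d i)) (Fin (d i)) (D i) :=
    { toFun := fun x => ψ (Unitization.inr x)
      map_mul' := fun x y => by rw [Unitization.inr_mul, map_mul]
      map_zero' := by rw [Unitization.inr_zero, map_zero]
      map_add' := fun x y => by rw [Unitization.inr_add, map_add] }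
  have hleft : ∀ (u : Unitization (ZMod m) R) (x : R), ∃ y : R, u * Unitization.inr x =
      Unitization.inr y := by
    intro u x
    refine ⟨(u * Unitization.inr x).snd, ?_⟩
    apply Unitization.ext <;> simp
  have hright : ∀ (u : Unitization (ZMod m) R) (x : R), ∃ y : R, Unitization.inr x * u =
      Unitization.inr y := by
    intro u x
    refine ⟨(Unitization.inr x * u).snd, ?_⟩
    apply Unitization.ext <;> simp
  let I : TwoSidedIdeal (Matrix (Fin (d i)) (Fin (d i)) (D i)) :=
    TwoSidedIdeal.mk' (Set.range φ) ⟨0, map_zero φ⟩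
      (by rintro _ _ ⟨x, rfl⟩ ⟨y, rfl⟩; exact ⟨x + y, map_add φ x y⟩)
      (by rintro _ ⟨x, rfl⟩; exact ⟨-x, map_neg φ x⟩)
      (by
        rintro M _ ⟨x, rfl⟩
        obtain ⟨u, rfl⟩ := hψ M
        obtain ⟨y, hy⟩ := hleft u x
        refine ⟨y, ?_⟩
        change ψ (Unitization.inr y) = ψ u * ψ (Unitization.inr x)
        rw [← map_mul, hy])
      (by
        rintro _ M ⟨x, rfl⟩
        obtain ⟨u, rfl⟩ := hψ M
        obtain ⟨y, hy⟩ := hright u x
        refine ⟨y, ?_⟩
        change ψ (Unitization.inr y) = ψ (Unitization.inr x) * ψ u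
        rw [← map_mul, hy])
  have hmemI : ∀ M, M ∈ I ↔ ∃ x, φ x = M := fun M => by
    exact TwoSidedIdeal.mem_mk' _ _ _ _ _ _ _
  have hIne : I ≠ ⊥ := by
    intro h
    have h1 : φ r ∈ I := (hmemI _).mpr ⟨r, rfl⟩
    rw [h, TwoSidedIdeal.mem_bot] at h1
    exact hψr h1
  have hIt : I = ⊤ := by
    rcases IsSimpleRing.simple.eq_bot_or_eq_top I with h | h
    · exact absurd h hIne
    · exact h
  have hfin : Finite (D i) := by
    refine Finite.of_surjective (fun u => (ψ u) 0 0) ?_
    intro z
    obtain ⟨u, hu⟩ := hψ (Matrix.of fun _ _ => z)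
    refine ⟨u, ?_⟩
    change (ψ u) 0 0 = z
    rw [hu]
    rfl
  refine ⟨d i, inferInstance, D i, littleWedderburn (D i), hfin, φ, ?_⟩
  intro M
  have : M ∈ I := by rw [hIt]; trivial
  exact (hmemI M).mp this

end Pool.Agent.Q188.SR
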