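import Pool.Agent.Q188.SR.Count
import Pool.Agent.Q188.SR.Mat
import Pool.Agent.Q188.SR.Quot

/-!
# Subalgebras of finite associative algebras
-/

set_option autoImplicit false

namespace Pool.Agent.Q188.SR

universe u v

/-- **Finite associative algebras.** -/
theorem exists_rarePair (k : Type v) [CommRing k] (R : Type u) [NonUnitalRing R] [Module k R]
    [IsScalarTower k R R] [SMulCommClass k R R] [Finite R] [Nontrivial R] :
    ∃ x y : R, RarePair k x y := by
  classical
  by_cases h : Submodule.span k {z : R | ∃ a b, z = a * b} = ⊤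
  swap
  · obtain ⟨x, hx⟩ := exists_rarePair_of_ne h
    exact ⟨x, x, hx⟩
  have hprod : ∀ r : R, r ∈ AddSubmonoid.closure {z : R | ∃ a b, z = a * b} := by
    intro r
    have hr : r ∈ Submodule.span k {z : R | ∃ a b, z = a * b} := by rw [h]; trivial
    induction hr using Submodule.closure_induction with
    | zero => exact zero_mem _
    | add x y _ _ hx hy => exact add_mem hx hy
    | smul_mem c x hx =>
      obtain ⟨a, b, rfl⟩ := hx
      exact AddSubmonoid.subset_closure ⟨c • a, b, (smul_mul_assoc c a b).symm⟩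
  obtain ⟨n, hn, D, hD, hfin, φ, hφ⟩ := exists_matrix R hprod
  obtain ⟨r₁, hr₁⟩ := hφ 1
  let I : Submodule k R :=
    { carrier := {r | φ r = 0}
      zero_mem' := map_zero φ
      add_mem' := fun {a b} ha hb => by
        have ha' : φ a = 0 := ha
        have hb' : φ b = 0 := hb
        change φ (a + b) = 0
        rw [map_add, ha', hb', add_zero]
      smul_mem' := fun c i hi => by
        have hi' : φ i = 0 := hi
        change φ (c • i) = 0
        have h1 : r₁ * (c • i) = (c • r₁) * i := by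
          rw [mul_smul_comm, smul_mul_assoc]
        have h2 : φ (r₁ * (c • i)) = φ (c • i) := by rw [map_mul, hr₁, one_mul]
        rw [← h2, h1, map_mul, hi', mul_zero] }
  have hmem : ∀ r, r ∈ I ↔ φ r = 0 := fun r => Iff.rfl
  obtain ⟨θ, hθ⟩ := IsCyclic.exists_monoid_generator (α := Dˣ)
  obtain ⟨x, hx⟩ := hφ (Matrix.single 0 0 (θ : D))
  obtain ⟨y, hy⟩ := hφ (cyc n D)
  refine ⟨x, y, rarePair_of (I := I) ?_ ?_ ?_ ?_⟩
  · intro r i hi
    rw [hmem] at hi ⊢
    rw [map_mul, hi, mul_zero]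
  · rw [hmem, hx]
    intro h0
    have := congrFun (congrFun h0 0) 0
    rw [Matrix.single_apply_same] at this
    exact θ.ne_zero this
  · rw [hmem, hy]
    exact cyc_ne_zero
  · intro T hxT hyT r
    have h1 := mem_of_gen hθ (φ '' (T : Set R)) ⟨0, zero_mem T, map_zero φ⟩
      (by rintro _ ⟨a, ha, rfl⟩ _ ⟨b, hb, rfl⟩; exact ⟨a + b, add_mem ha hb, map_add φ a b⟩)
      (by rintro _ ⟨a, ha, rfl⟩ _ ⟨b, hb, rfl⟩; exact ⟨a * b, mul_mem ha hb, map_mul φ a b⟩)
      ⟨x, hxT, hx⟩ ⟨y, hyT, hy⟩ (φ r)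
    obtain ⟨s, hs, hsr⟩ := h1
    refine ⟨s, hs, ?_⟩
    rw [hmem, map_sub, hsr, sub_self]

end Pool.Agent.Q188.SR
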